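import Mathlib

/-!
# A triplet cover of a binary phylogenetic tree with 12 leaves which is not shellable
-/

set_option autoImplicit false

namespace Pool.Agent.Results.MP_66d22e_co.NotShellable

/-! ### Definitions -/

section defs

variable {X V : Type} (T : SimpleGraph V) (leaf : X → V)

/-- `T` is a binary phylogenetic `X`-tree; `leaf x` is the leaf labelled by `x`. -/
def IsBinaryPhylo : Prop :=
  T.IsTree ∧ Function.Injective leaf ∧ (∀ x, (T.neighborSet (leaf x)).ncard = 1) ∧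
    ∀ v, v ∉ Set.range leaf → (T.neighborSet v).ncard = 3

/-- `u` and `w` lie in different components of `T` without `v` (for `u, w ≠ v`). -/
def Separates (v u w : V) : Prop := ∀ p : T.Walk u w, v ∈ p.support

/-- the triple `abc` supports the interior vertex `v` relative to `F` -/
def Supports (F : Set (Sym2 X)) (v : V) (a b c : X) : Prop :=
  (Separates T v (leaf a) (leaf b) ∧ Separates T v (leaf a) (leaf c) ∧ Separates T v (leaf b) (leaf c)) ∧
    s(a, b) ∈ F ∧ s(a, c) ∈ F ∧ s(b, c) ∈ F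

/-- `F` is a triplet cover for `T`. -/
def IsTripletCover (F : Set (Sym2 X)) : Prop :=
  (∀ e ∈ F, ¬ e.IsDiag) ∧ ∀ v, v ∉ Set.range leaf → ∃ a b c, Supports T leaf F v a b c

/-- The restriction of `T` to `{x, a, y, b}` is the quartet `xa|yb`. -/
def Quartet (x a y b : X) : Prop :=
  ∀ (p : T.Walk (leaf x) (leaf a)) (q : T.Walk (leaf y) (leaf b)), p.IsPath → q.IsPath →
    List.Disjoint p.support q.support

/-- `F` is `T`-shellable. -/
def IsShellable (F : Set (Sym2 X)) : Prop :=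
  ∃ (m : ℕ) (a b : Fin m → X), Function.Injective (fun i => s(a i, b i)) ∧
    Set.range (fun i => s(a i, b i)) = {e | ¬ e.IsDiag ∧ e ∉ F} ∧
    ∀ i, ∃ x y, x ≠ y ∧ x ≠ a i ∧ x ≠ b i ∧ y ≠ a i ∧ y ≠ b i ∧ Quartet T leaf x (a i) y (b i) ∧
      ∀ e ∈ ({s(a i, x), s(a i, y), s(b i, x), s(b i, y), s(x, y)} : Set (Sym2 X)),
        e ∈ F ∨ ∃ j < i, e = s(a j, b j)

end defs

/-! ### The example -/

/-- the neighbours in the tree; the leaves are `0, …, 11` -/
def nbT : Fin 22 → List (Fin 22) := ![[19], [16], [21], [15], [14], [20], [16], [17], [18], [19], [20], [21],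
  [14, 18, 19], [15, 17, 21], [4, 12, 17], [3, 13, 20], [1, 6, 18], [7, 13, 14], [8, 12, 16], [0, 9, 12],
  [5, 10, 15], [2, 11, 13]]

/-- the tree -/
def T : SimpleGraph (Fin 22) where
  Adj u v := v ∈ nbT u
  symm := ⟨by
    have : ∀ u v : Fin 22, v ∈ nbT u → u ∈ nbT v := by decide +kernel
    exact this⟩
  loopless := ⟨by
    have : ∀ u : Fin 22, ¬ u ∈ nbT u := by decide +kernel
    exact this⟩

instance : DecidableRel T.Adj := fun u v => inferInstanceAs (Decidable (v ∈ nbT u))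

/-- the leaves -/
def leaf (x : Fin 12) : Fin 22 := ⟨x, by omega⟩

/-- the neighbours in the triplet cover -/
def nbF : Fin 12 → List (Fin 12) := ![[4, 5, 7, 9], [6, 7, 10, 11], [4, 8, 9, 11], [5, 7, 8, 11],
  [0, 2, 5, 10, 11], [0, 3, 4, 8, 10], [1, 8, 9, 10], [0, 1, 3, 9, 11], [2, 3, 5, 6, 9], [0, 2, 6, 7, 8],
  [1, 4, 5, 6], [1, 2, 3, 4, 7]]

/-- the triplet cover -/
def F : Set (Sym2 (Fin 12)) := {e | ∃ a b, b ∈ nbF a ∧ e = s(a, b)}

/-- the neighbours in a graph which contains all pairs that can be added -/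
def nbC : Fin 12 → List (Fin 12) := ![[4, 5, 7, 9, 10], [3, 6, 7, 10, 11], [4, 6, 8, 9, 11], [1, 5, 7, 8, 11],
  [0, 2, 5, 10, 11], [0, 3, 4, 8, 10], [1, 2, 8, 9, 10], [0, 1, 3, 9, 11], [2, 3, 5, 6, 9], [0, 2, 6, 7, 8],
  [0, 1, 4, 5, 6], [1, 2, 3, 4, 7]]

lemma nbF_symm : ∀ a b : Fin 12, b ∈ nbF a → a ∈ nbF b := by decide +kernel

lemma nbC_symm : ∀ a b : Fin 12, b ∈ nbC a → a ∈ nbC b := by decide +kernel

lemma nbF_sub : ∀ a b : Fin 12, b ∈ nbF a → b ∈ nbC a := by decide +kernel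

lemma nbF_ne : ∀ a b : Fin 12, b ∈ nbF a → a ≠ b := by decide +kernel

/-- `a` and `b` have two adjacent common neighbours. -/
def Dia (a b : Fin 12) : Prop := ∃ x ∈ nbC a, x ∈ nbC b ∧ ∃ y ∈ nbC a, y ∈ nbC b ∧ y ∈ nbC x

instance (a b : Fin 12) : Decidable (Dia a b) := inferInstanceAs (Decidable
  (∃ x ∈ nbC a, x ∈ nbC b ∧ ∃ y ∈ nbC a, y ∈ nbC b ∧ y ∈ nbC x))

lemma closed : ∀ a b : Fin 12, a ≠ b → Dia a b → b ∈ nbC a := by decide +kernel

lemma mem_F {a b : Fin 12} : s(a, b) ∈ F ↔ b ∈ nbF a := by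
  constructor
  · rintro ⟨c, d, h, he⟩
    rw [Sym2.eq_iff] at he
    rcases he with ⟨rfl, rfl⟩ | ⟨rfl, rfl⟩
    · exact h
    · exact nbF_symm _ _ h
  · exact fun h => ⟨a, b, h, rfl⟩

/-- the pairs of the larger graph -/
def C : Set (Sym2 (Fin 12)) := {e | ∃ a b, b ∈ nbC a ∧ e = s(a, b)}

lemma mem_C {a b : Fin 12} : s(a, b) ∈ C ↔ b ∈ nbC a := by
  constructor
  · rintro ⟨c, d, h, he⟩
    rw [Sym2.eq_iff] at he
    rcases he with ⟨rfl, rfl⟩ | ⟨rfl, rfl⟩
    · exact h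
    · exact nbC_symm _ _ h
  · exact fun h => ⟨a, b, h, rfl⟩

/-- the parent of a vertex of the tree -/
def par : Fin 22 → Fin 22 := ![19, 16, 21, 15, 14, 20, 16, 17, 18, 19, 20, 21, 12, 17, 12, 13, 18, 14, 12, 12,
  15, 13]

lemma reach (v : Fin 22) : T.Reachable v 12 := by
  have h1 : ∀ v : Fin 22, v = 12 ∨ T.Adj v (par v) := by decide +kernel
  have h2 : ∀ v : Fin 22, T.Reachable v (par v) := by
    intro v
    rcases h1 v with h | h
    · subst h
      exact SimpleGraph.Reachable.refl _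
    · exact h.reachable
  have h3 : ∀ v : Fin 22, par (par (par (par (par (par v))))) = 12 := by decide +kernel
  have := ((((h2 v).trans (h2 _)).trans (h2 _)).trans (h2 _)).trans ((h2 _).trans (h2 _))
  rwa [h3] at this

lemma isTree : T.IsTree := by
  rw [SimpleGraph.isTree_iff_connected_and_card]
  refine ⟨{ preconnected := fun u v => (reach u).trans (reach v).symm, nonempty := ⟨0⟩ }, ?_⟩
  rw [Nat.card_eq_fintype_card, Nat.card_eq_fintype_card, ← SimpleGraph.edgeFinset_card]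
  decide +kernel

lemma notMem_range {v : Fin 22} (h : v ∉ Set.range leaf) : 12 ≤ v.val := by
  by_contra hv
  exact h ⟨⟨v, by omega⟩, rfl⟩

lemma binary : IsBinaryPhylo T leaf := by
  refine ⟨isTree, ?_, ?_, ?_⟩
  · intro a b h
    have := congrArg Fin.val h
    exact Fin.ext this
  · intro x
    have : ∀ x : Fin 12, (T.neighborFinset (leaf x)).card = 1 := by decide +kernel
    rw [← SimpleGraph.coe_neighborFinset, Set.ncard_coe_finset]
    exact this x
  · intro v hv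
    have : ∀ v : Fin 22, 12 ≤ v.val → (T.neighborFinset v).card = 3 := by decide +kernel
    rw [← SimpleGraph.coe_neighborFinset, Set.ncard_coe_finset]
    exact this v (notMem_range hv)

/-- the components of the tree without an interior vertex -/
def lab : Fin 10 → Fin 22 → Fin 3 := ![
  ![2, 1, 0, 0, 0, 0, 1, 0, 1, 2, 0, 0, 0, 0, 0, 0, 1, 0, 1, 2, 0, 0],
  ![1, 1, 2, 0, 1, 0, 1, 1, 1, 1, 0, 2, 1, 0, 1, 0, 1, 1, 1, 1, 0, 2],
  ![1, 1, 2, 2, 0, 2, 1, 2, 1, 1, 2, 2, 1, 2, 0, 2, 1, 2, 1, 1, 2, 2],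
  ![1, 1, 1, 0, 1, 2, 1, 1, 1, 1, 2, 1, 1, 1, 1, 0, 1, 1, 1, 1, 2, 1],
  ![2, 0, 2, 2, 2, 2, 1, 2, 2, 2, 2, 2, 2, 2, 2, 2, 0, 2, 2, 2, 2, 2],
  ![2, 2, 1, 1, 2, 1, 2, 0, 2, 2, 1, 1, 2, 1, 2, 1, 2, 0, 2, 2, 1, 1],
  ![1, 2, 1, 1, 1, 1, 2, 1, 0, 1, 1, 1, 1, 1, 1, 1, 2, 1, 0, 1, 1, 1],
  ![0, 2, 2, 2, 2, 2, 2, 2, 2, 1, 2, 2, 2, 2, 2, 2, 2, 2, 2, 0, 2, 2],
  ![2, 2, 2, 2, 2, 0, 2, 2, 2, 2, 1, 2, 2, 2, 2, 2, 2, 2, 2, 2, 0, 2],
  ![2, 2, 0, 2, 2, 2, 2, 2, 2, 2, 2, 1, 2, 2, 2, 2, 2, 2, 2, 2, 2, 0]]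

/-- the interior vertices -/
def intv (k : Fin 10) : Fin 22 := ⟨k + 12, by omega⟩

lemma lab_adj : ∀ (k : Fin 10) (u w : Fin 22), T.Adj u w → u ≠ intv k → w ≠ intv k → lab k u = lab k w := by
  decide +kernel

lemma sep (k : Fin 10) (u w : Fin 22) (h : lab k u ≠ lab k w) : Separates T (intv k) u w := by
  intro p
  by_contra hp
  apply h
  have key : ∀ (u w : Fin 22) (p : T.Walk u w), intv k ∉ p.support → lab k u = lab k w := by
    intro u w p
    induction p with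
    | nil => exact fun _ => rfl
    | @cons u v w hadj q ih =>
      intro hs
      rw [SimpleGraph.Walk.support_cons, List.mem_cons, not_or] at hs
      have hv : v ≠ intv k := by
        rintro rfl
        exact hs.2 q.start_mem_support
      exact (lab_adj k u v hadj (Ne.symm hs.1) hv).trans (ih hs.2)
  exact key _ _ p hp

/-- the supporting triples -/
def tr : Fin 10 → Fin 12 × Fin 12 × Fin 12 := ![(2, 8, 9), (3, 7, 11), (0, 4, 5), (3, 8, 5), (1, 6, 10),
  (11, 1, 7), (9, 6, 8), (0, 7, 9), (5, 4, 10), (2, 4, 11)]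

lemma tr_facts : ∀ k : Fin 10, (lab k (leaf (tr k).1) ≠ lab k (leaf (tr k).2.1) ∧
    lab k (leaf (tr k).1) ≠ lab k (leaf (tr k).2.2) ∧ lab k (leaf (tr k).2.1) ≠ lab k (leaf (tr k).2.2)) ∧
    (tr k).2.1 ∈ nbF (tr k).1 ∧ (tr k).2.2 ∈ nbF (tr k).1 ∧ (tr k).2.2 ∈ nbF (tr k).2.1 := by
  decide +kernel

lemma cover : IsTripletCover T leaf F := by
  constructor
  · rintro e ⟨a, b, h, rfl⟩ hd
    exact nbF_ne a b h hd
  · intro v hv
    have h12 := notMem_range hv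
    obtain ⟨k, rfl⟩ : ∃ k : Fin 10, v = intv k :=
      ⟨⟨v.val - 12, by omega⟩, Fin.ext (by simp only [intv]; omega)⟩
    obtain ⟨⟨h1, h2, h3⟩, h4, h5, h6⟩ := tr_facts k
    exact ⟨_, _, _, ⟨sep k _ _ h1, sep k _ _ h2, sep k _ _ h3⟩, mem_F.2 h4, mem_F.2 h5, mem_F.2 h6⟩

lemma not_shellable : ¬ IsShellable T leaf F := by
  rintro ⟨m, a, b, -, hr, h⟩
  have key : ∀ n : ℕ, ∀ i : Fin m, i.val = n → s(a i, b i) ∈ C := by
    intro n
    induction n using Nat.strong_induction_on with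
    | _ n ih =>
      intro i hi
      obtain ⟨x, y, -, -, -, -, -, -, h7⟩ := h i
      have hsub : ∀ e ∈ ({s(a i, x), s(a i, y), s(b i, x), s(b i, y), s(x, y)} : Set (Sym2 (Fin 12))),
          e ∈ C := by
        intro e he
        rcases h7 e he with h8 | ⟨j, hj, rfl⟩
        · obtain ⟨c, d, hcd, rfl⟩ := h8
          exact mem_C.2 (nbF_sub _ _ hcd)
        · exact ih j.val (by rw [← hi]; exact hj) j rfl
      have hne : a i ≠ b i := by
        have h8 : s(a i, b i) ∈ {e : Sym2 (Fin 12) | ¬ e.IsDiag ∧ e ∉ F} := hr ▸ ⟨i, rfl⟩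
        exact h8.1
      refine mem_C.2 (closed (a i) (b i) hne ⟨x, ?_, ?_, y, ?_, ?_, ?_⟩)
      · exact mem_C.1 (hsub _ (by simp))
      · exact mem_C.1 (hsub _ (by simp))
      · exact mem_C.1 (hsub _ (by simp))
      · exact mem_C.1 (hsub _ (by simp))
      · exact mem_C.1 (hsub _ (by simp))
  have h01 : s((0 : Fin 12), (1 : Fin 12)) ∈ Set.range (fun i => s(a i, b i)) := by
    rw [hr]
    refine ⟨by decide, ?_⟩
    rw [mem_F]
    decide
  obtain ⟨i, hi⟩ := h01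
  have h02 := key i.val i rfl
  simp only at hi
  rw [hi, mem_C] at h02
  revert h02
  decide

/-- **Theorem.** There is a binary phylogenetic tree with 12 leaves and a triplet cover for it which is not
shellable. -/
theorem result : ∃ (V : Type) (_ : Finite V) (T : SimpleGraph V) (leaf : Fin 12 → V) (F : Set (Sym2 (Fin 12))),
    IsBinaryPhylo T leaf ∧ IsTripletCover T leaf F ∧ ¬ IsShellable T leaf F :=
  ⟨Fin 22, inferInstance, T, leaf, F, binary, cover, not_shellable⟩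

end Pool.Agent.Results.MP_66d22e_co.NotShellable
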